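import Pool.Agent.W997.NL.Stm

/-!
# Project NL, part BASE: the first graph of the recursion
-/

set_option autoImplicit false

namespace Pool.Agent.W899.NL

open Finset
open Pool.Agent.W997.SR (Dag)
open Pool.Agent.W997.NL

/-- A pebble which is present was there at the start or was placed. -/
theorem rem1 {Γ : Type} {C : ℕ → Finset Γ} {v : Γ} {a t : ℕ} (hat : a ≤ t) (hv : v ∈ C t)
    (hva : v ∉ C a) : ∃ s, a ≤ s ∧ s < t ∧ v ∉ C s ∧ v ∈ C (s + 1) := by
  induction t, hat using Nat.le_induction with
  | base => exact absurd hv hva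
  | succ t hat ih =>
    by_cases h : v ∈ C t
    · obtain ⟨s, h1, h2, h3⟩ := ih h
      exact ⟨s, h1, by omega, h3⟩
    · exact ⟨t, hat, by omega, h, hv⟩

/-- One step in the graph. -/
theorem step {I : Type} [Fintype I] {G : Dag} {C : ℕ → Finset G.Γ} (hL : Legal G C) (a b : ℕ)
    (f h : I → G.Γ) (hinj : Function.Injective h) (hk : ∀ i, h i ∈ G.kid (f i)) :
    placed C a b f ≤ placed C a b h + (C a).card := by
  classical
  have h1 : (univ.filter (fun j => ∃ t, a ≤ t ∧ t < b ∧ f j ∉ C t ∧ f j ∈ C (t + 1))) ⊆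
      (univ.filter (fun j => ∃ t, a ≤ t ∧ t < b ∧ h j ∉ C t ∧ h j ∈ C (t + 1))) ∪
      (univ.filter (fun j => h j ∈ C a)) := by
    intro j hj
    rw [mem_filter] at hj
    obtain ⟨-, t, hat, htb, h2, h3⟩ := hj
    have h4 : h j ∈ C t := hL t (f j) h3 h2 (hk j)
    rw [mem_union, mem_filter, mem_filter]
    by_cases h5 : h j ∈ C a
    · exact Or.inr ⟨mem_univ _, h5⟩
    · obtain ⟨s, h6, h7, h8⟩ := rem1 hat h4 h5
      exact Or.inl ⟨mem_univ _, s, h6, by omega, h8⟩
  have h2 : (univ.filter (fun j => h j ∈ C a)).card ≤ (C a).card := by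
    refine card_le_card_of_injOn h ?_ (hinj.injOn)
    intro j hj
    rw [mem_coe, mem_filter] at hj
    exact hj.2
  unfold placed
  calc _ ≤ _ := by
        refine le_trans (le_of_eq ?_) (card_le_card h1)
        congr
    _ ≤ _ := card_union_le _ _
    _ ≤ _ := by
        refine add_le_add (le_of_eq ?_) h2
        congr

variable {I : Type} [Fintype I] [DecidableEq I]

/-- the part of the configuration in the superconcentrator -/
def sub (S : IOG I) (C : ℕ → Finset (BCell I S.G.Γ)) (t : ℕ) : Finset S.G.Γ :=
  univ.filter (fun x => BCell.mid x ∈ C t)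

theorem sub_legal (S : IOG I) {C : ℕ → Finset (BCell I S.G.Γ)} (hL : Legal (base S).G C) :
    Legal S.G (sub S C) := by
  intro t v hv hv'
  unfold sub at hv hv' ⊢
  rw [mem_filter] at hv hv'
  have h1 : (BCell.mid v : BCell I S.G.Γ) ∉ C t := fun h => hv' ⟨mem_univ _, h⟩
  have h2 := hL t (BCell.mid v) hv.2 h1
  intro c hc
  rw [mem_filter]
  refine ⟨mem_univ _, h2 ?_⟩
  show BCell.mid c ∈ baseKid S (BCell.mid v)
  simp only [baseKid, mem_union, mem_image]
  exact Or.inl ⟨c, hc, rfl⟩

theorem sub_card (S : IOG I) (C : ℕ → Finset (BCell I S.G.Γ)) (t : ℕ) :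
    (sub S C t).card ≤ (C t).card := by
  refine card_le_card_of_injOn (fun x => BCell.mid x) ?_ ?_
  · intro x hx
    rw [mem_coe, sub, mem_filter] at hx
    exact hx.2
  · intro x _ y _ h
    exact BCell.mid.inj h

theorem sub_placed (S : IOG I) (C : ℕ → Finset (BCell I S.G.Γ)) (a b : ℕ) (f : I → S.G.Γ) :
    placed (sub S C) a b f = placed C a b (fun i => BCell.mid (f i)) := by
  unfold placed sub
  congr 1
  ext j
  simp

theorem chain (S : IOG I) (hS : SCProp S) {C : ℕ → Finset (base S).G.Γ}
    (hL : Legal (base S).G C) (a b : ℕ) (h : 2 * (C a).card < placed C a b (base S).out) :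
    Fintype.card I ≤ placed C a b (base S).inp + 2 * (C a).card := by
  have h1 := step hL a b (base S).out (fun i => (BCell.mid (S.out i) : BCell I S.G.Γ))
    (by
      intro i j hij
      exact S.out_inj (BCell.mid.inj hij))
    (by
      intro i
      show BCell.mid (S.out i) ∈ baseKid S (BCell.out i)
      simp [baseKid])
  have h3 := step hL a b (fun i => (BCell.mid (S.inp i) : BCell I S.G.Γ)) (base S).inp
    (base S).inp_inj
    (by
      intro i
      show BCell.inp i ∈ baseKid S (BCell.mid (S.inp i))
      simp [baseKid])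
  have hc := sub_card S C a
  have h2 := hS (sub S C) (sub_legal S hL) a b (by
    rw [sub_placed]
    have : placed C a b (base S).out ≤
        placed C a b (fun i => (BCell.mid (S.out i) : BCell I S.G.Γ)) + (C a).card := h1
    have hc' : (sub S C a).card ≤ (C a).card := hc
    have h5 : (C a).card + (C a).card <
        placed C a b (fun i => (BCell.mid (S.out i) : BCell I S.G.Γ)) + (C a).card :=
      lt_of_lt_of_le (by rw [← two_mul]; exact h) this
    exact lt_of_le_of_lt hc' (Nat.lt_of_add_lt_add_right h5))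
  rw [sub_placed] at h2
  have h3' : placed C a b (fun i => (BCell.mid (S.inp i) : BCell I S.G.Γ)) ≤
      placed C a b (base S).inp + (C a).card := h3
  have hc' : (sub S C a).card ≤ (C a).card := hc
  have h2' : Fintype.card I ≤
      placed C a b (fun i => (BCell.mid (S.inp i) : BCell I S.G.Γ)) + (sub S C a).card := h2
  have h4 : Fintype.card I ≤ (placed C a b (base S).inp + (C a).card) + (C a).card :=
    h2'.trans (Nat.add_le_add h3' hc')
  refine h4.trans (le_of_eq ?_)
  ring

theorem main : Pool.Agent.W997.NL.S_BASE := by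
  classical
  intro I _ _ S hS hI C hL a b hab hCa hX
  rw [mul_one] at hCa hX ⊢
  by_cases hne : ∀ t, a < t → t < b → 1 ≤ (C t).card
  · refine ⟨a, b, le_rfl, hab, le_rfl, hne, ?_⟩
    have := chain S hS hL a b (by omega)
    omega
  · push Not at hne
    obtain ⟨t', ht'⟩ := hne
    have hex : ∃ t, a < t ∧ t < b ∧ (C t).card = 0 := ⟨t', ht'.1, ht'.2.1, by omega⟩
    obtain ⟨ht0a, ht0b, ht0⟩ := Nat.find_spec hex
    set t0 := Nat.find hex with ht0def
    have hmin : ∀ t, a < t → t < t0 → 1 ≤ (C t).card := by
      intro t h1 h2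
      by_contra h3
      exact Nat.find_min hex h2 ⟨h1, by omega, by omega⟩
    by_cases h5 : 5 ≤ placed C a t0 (base S).out
    · refine ⟨a, t0, le_rfl, ht0a.le, ht0b.le, hmin, ?_⟩
      have := chain S hS hL a t0 (by omega)
      omega
    · -- an output which is placed later
      have hlt : placed C a t0 (base S).out < placed C a b (base S).out := by omega
      have hexp : ∃ j, (∃ t, a ≤ t ∧ t < b ∧ (base S).out j ∉ C t ∧ (base S).out j ∈ C (t + 1)) ∧
          ¬ (∃ t, a ≤ t ∧ t < t0 ∧ (base S).out j ∉ C t ∧ (base S).out j ∈ C (t + 1)) := by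
        by_contra hcon
        push Not at hcon
        apply absurd hlt
        rw [not_lt]
        unfold placed
        refine card_le_card ?_
        intro j hj
        rw [mem_filter] at hj ⊢
        refine ⟨mem_univ _, ?_⟩
        obtain ⟨t, h1, h2, h3, h4⟩ := hj.2
        exact hcon j ⟨t, h1, h2, h3, h4⟩
      obtain ⟨j, ⟨t, h1, h2, h3, h4⟩, hj⟩ := hexp
      have htt0 : t0 ≤ t := by
        by_contra hcon
        exact hj ⟨t, h1, by omega, h3, h4⟩
      set P : ℕ → Prop := fun s => t0 ≤ s ∧ (C s).card = 0 with hP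
      have hPt0 : P t0 := ⟨le_rfl, ht0⟩
      have hspec := Nat.findGreatest_spec (P := P) htt0 hPt0
      set t1 := Nat.findGreatest P t with ht1
      have ht1t : t1 ≤ t := Nat.findGreatest_le t
      refine ⟨t1, t + 1, by have := hspec.1; omega, by omega, by omega, ?_, ?_⟩
      · intro s hs1 hs2
        by_contra hcon
        have := Nat.findGreatest_is_greatest (P := P) (n := t) (k := s) hs1 (by omega)
        exact this ⟨by have := hspec.1; omega, by omega⟩
      · have hpos : 0 < placed C t1 (t + 1) (base S).out := by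
          unfold placed
          rw [card_pos]
          exact ⟨j, mem_filter.mpr ⟨mem_univ _, t, ht1t, by omega, h3, h4⟩⟩
        have := chain S hS hL t1 (t + 1) (by rw [hspec.2]; omega)
        rw [hspec.2] at this
        omega

end Pool.Agent.W899.NL
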